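import Pool.Agent.Helper53.CTG.Goals

/-!
# PROJECT CTG (MP_8b4d68_lc), packet AS2: asymptotics
-/

set_option autoImplicit false

namespace Pool.Agent.Helper42.CTG

open Pool.Agent.Helper53.CTG

theorem log_Pb (b : ℕ) (hb : 1 ≤ b) : Nat.log 2 (Pb b) ≤ Nat.log 2 b + 6 := by
  have h1 : Pb b ≤ b * 2 ^ 6 := by
    unfold Pb Rb
    omega
  calc Nat.log 2 (Pb b) ≤ Nat.log 2 (b * 2 ^ 6) := Nat.log_mono_right h1
    _ = Nat.log 2 b + 6 := by
      rw [Nat.pow_succ, Nat.pow_succ, Nat.pow_succ, Nat.pow_succ, Nat.pow_succ, Nat.pow_one]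
      simp only [← mul_assoc]
      rw [Nat.log_mul_base (by norm_num) (by positivity), Nat.log_mul_base (by norm_num) (by positivity),
        Nat.log_mul_base (by norm_num) (by positivity), Nat.log_mul_base (by norm_num) (by positivity),
        Nat.log_mul_base (by norm_num) (by positivity), Nat.log_mul_base (by norm_num) (by omega)]

theorem log_Gb (b : ℕ) : Nat.log 2 (Gb b) ≤ 7 := by
  have h1 : Pb b / Rb b ≤ 200 := by
    have h2 : Pb b ≤ 200 * Rb b := by
      unfold Pb Rb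
      omega
    rcases Nat.eq_zero_or_pos (Rb b) with h3 | h3
    · rw [h3, Nat.div_zero]
      exact Nat.zero_le _
    · exact Nat.div_le_of_le_mul (by rw [mul_comm]; exact h2)
  have h2 : Gb b < 2 ^ 8 := by
    unfold Gb
    omega
  have h0 : Gb b ≠ 0 := Nat.succ_ne_zero _
  have h3 : Nat.log 2 (Gb b) < 8 := Nat.log_lt_of_lt_pow h0 h2
  omega

theorem q_Hb (N q : ℕ) (hq : 1 ≤ q) (hN : q ≤ N) : q * Hb N q ≤ 2 * N := by
  unfold Hb
  have h1 : q * ((N - 1) / q) ≤ N - 1 := Nat.mul_div_le _ _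
  calc q * ((N - 1) / q + 1) = q * ((N - 1) / q) + q := by ring
    _ ≤ 2 * N := by omega

theorem Et_le (N q b c : ℕ) (hq : 1 ≤ q) (hN : q ≤ N) (hb : 1 ≤ b) (hc : c ≤ b) :
    Et N q b c + 1 ≤ 42 * (q * b * (Nat.log 2 b + 7)) + 185 * N + 4 * b + 3 * (b * Hb N q) := by
  have hl := log_Pb b hb
  have hg := log_Gb b
  have hH := q_Hb N q hq hN
  have hH1 : 1 ≤ Hb N q := Nat.le_add_left 1 _
  have hH2 : Hb N q ≤ q * Hb N q := Nat.le_mul_of_pos_left _ (by omega)
  set l := Nat.log 2 b with hldef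
  have hE : Eb b ≤ 6 * b * (l + 7) := by
    unfold Eb
    exact Nat.mul_le_mul (by omega) (by omega)
  have hF : Fb N q b ≤ (Hb N q + 1) * 8 := by
    unfold Fb
    exact Nat.mul_le_mul le_rfl (by omega)
  have k1 : (3 * q + 4) * (Eb b + Fb N q b) ≤ 42 * (q * b * (l + 7)) + 168 * N := by
    calc (3 * q + 4) * (Eb b + Fb N q b) ≤ (7 * q) * (6 * b * (l + 7) + (Hb N q + 1) * 8) :=
          Nat.mul_le_mul (by omega) (by omega)
      _ = 42 * (q * b * (l + 7)) + 56 * (q * Hb N q) + 56 * q := by ring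
      _ ≤ 42 * (q * b * (l + 7)) + 168 * N := by omega
  have k2 : Nt N q ≤ 3 * N := by
    unfold Nt
    omega
  have k4 : c * (Hb N q + 2) ≤ 3 * (b * Hb N q) := by
    calc c * (Hb N q + 2) ≤ b * (3 * Hb N q) := Nat.mul_le_mul hc (by omega)
      _ = 3 * (b * Hb N q) := by ring
  unfold Et
  omega

theorem gAS2 : GoalAS2 := by
  intro C
  refine ⟨1932 + 684 * √(20 * C), by positivity, ?_⟩
  intro ok w N q b c hf hA hB
  obtain ⟨⟨_, _, hq, hqN, hb, hcb, _⟩, hlen⟩ := hf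
  have h0 := Et_le N q b c hq hqN hb hcb
  have hH := q_Hb N q hq hqN
  set H : ℕ := Hb N q with hHdef
  set l : ℕ := Nat.log 2 b with hldef
  set L : ℝ := Real.log w.length with hL
  have hl2 : (0.6931471803 : ℝ) < Real.log 2 := Real.log_two_gt_d9
  have hNr : (1 : ℝ) ≤ N := by exact_mod_cast (le_trans hq hqN)
  have hbr : (1 : ℝ) ≤ b := by exact_mod_cast hb
  have hqr : (1 : ℝ) ≤ q := by exact_mod_cast hq
  have hlr : (0 : ℝ) ≤ l := Nat.cast_nonneg l
  have hCr : (0 : ℝ) ≤ C := Nat.cast_nonneg C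
  have hHr : (0 : ℝ) ≤ H := Nat.cast_nonneg H
  -- `(N + b) log 2 ≤ L`
  have e1 : ((N : ℝ) + b) * Real.log 2 ≤ L := by
    have h2 : (((N + b : ℕ) : ℝ)) * Real.log 2 ≤ L := by
      rw [← Real.log_pow]
      exact Real.log_le_log (by positivity) (by exact_mod_cast hlen.le)
    push_cast at h2
    exact h2
  have hL0 : (4 : ℝ) / 3 ≤ L := by nlinarith
  have hNL : (N : ℝ) ≤ 2 * L := by nlinarith
  have hbL : (b : ℝ) ≤ 2 * L := by nlinarith
  set M : ℝ := Real.log L with hM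
  have hM0 : (1 : ℝ) / 4 ≤ M := by
    have h3 := Real.one_sub_inv_le_log_of_pos (show 0 < L by linarith)
    have h4 : L⁻¹ ≤ 3 / 4 := by
      rw [inv_le_comm₀ (by linarith) (by norm_num)]
      norm_num
      linarith
    linarith
  -- `l + 1 ≤ 10 M`
  have e2 : (l : ℝ) + 1 ≤ 10 * M := by
    have h3 : (2 : ℝ) ^ l ≤ b := by
      have := Nat.pow_log_le_self 2 (x := b) (by omega)
      exact_mod_cast this
    have h4 : (l : ℝ) * Real.log 2 ≤ Real.log 2 + M := by
      rw [← Real.log_pow, hM, ← Real.log_mul (by norm_num) (by linarith)]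
      exact Real.log_le_log (by positivity) (le_trans h3 hbL)
    have h5 : (l : ℝ) ≤ 1 + 2 * M := by
      by_contra hcon
      push Not at hcon
      nlinarith
    linarith
  set R : ℝ := √(N * (l + 1)) with hR
  have hR0 : 0 ≤ R := Real.sqrt_nonneg _
  have hs2 : s2 w.length = L * √(L * M) := rfl
  set S : ℝ := √(L * M) with hS
  have hS0 : 0 ≤ S := Real.sqrt_nonneg _
  have hS1 : 1 / 2 ≤ S := by
    rw [hS]
    apply Real.le_sqrt_of_sq_le
    nlinarith
  -- `R ≤ √20 S`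
  have e3 : R ≤ √20 * S := by
    rw [hR, hS, ← Real.sqrt_mul (by norm_num)]
    apply Real.sqrt_le_sqrt
    calc (N : ℝ) * (l + 1) ≤ (2 * L) * (10 * M) := by
          apply mul_le_mul hNL e2 (by positivity) (by linarith)
      _ = 20 * (L * M) := by ring
  -- `H ≤ 2 √C R`
  have e4 : (H : ℝ) ≤ 2 * √C * R := by
    have h3 : (H : ℝ) ^ 2 ≤ 4 * C * (N * (l + 1)) := by
      have h4 : (q : ℝ) * H ≤ 2 * N := by exact_mod_cast hH
      have h5 : (N : ℝ) ≤ C * q ^ 2 * (l + 1) := by exact_mod_cast hB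
      have h6 : (q : ℝ) ^ 2 * (H : ℝ) ^ 2 ≤ (q : ℝ) ^ 2 * (4 * (C : ℝ) * ((N : ℝ) * ((l : ℝ) + 1))) := by
        calc (q : ℝ) ^ 2 * (H : ℝ) ^ 2 = ((q : ℝ) * (H : ℝ)) ^ 2 := by ring
          _ ≤ (2 * (N : ℝ)) ^ 2 := pow_le_pow_left₀ (by positivity) h4 2
          _ = 4 * (N : ℝ) * (N : ℝ) := by ring
          _ ≤ 4 * (N : ℝ) * ((C : ℝ) * (q : ℝ) ^ 2 * ((l : ℝ) + 1)) := by
            apply mul_le_mul_of_nonneg_left h5 (by positivity)
          _ = (q : ℝ) ^ 2 * (4 * (C : ℝ) * ((N : ℝ) * ((l : ℝ) + 1))) := by ring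
      exact le_of_mul_le_mul_left h6 (by positivity)
    have h7 : (2 * √(C : ℝ) * R) ^ 2 = 4 * C * (N * (l + 1)) := by
      rw [mul_pow, mul_pow, hR, Real.sq_sqrt hCr, Real.sq_sqrt (by positivity)]
      ring
    have h8 : 0 ≤ 2 * √(C : ℝ) * R := by positivity
    rw [← h7] at h3
    exact le_of_sq_le_sq h3 h8
  -- `q (l + 7) ≤ 7 N + 8 √C R`, and `b` times it
  have e5 : (q : ℝ) * b * (l + 7) ≤ 7 * N + 8 * (b * (√C * R)) := by
    rcases Nat.lt_or_ge b 2 with h3 | h3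
    · have hb1 : b = 1 := by omega
      have hl0 : l = 0 := by
        rw [hldef, hb1]
        simp
      have hqN' : (q : ℝ) ≤ N := by exact_mod_cast hqN
      have h4 : 0 ≤ 8 * ((b : ℝ) * (√C * R)) := by positivity
      rw [hl0, hb1] at *
      push_cast at *
      linarith
    · have hl1 : 1 ≤ l := by
        rw [hldef]
        exact Nat.log_pos (by norm_num) h3
      have hl1r : (1 : ℝ) ≤ l := by exact_mod_cast hl1
      have h4 : (q : ℝ) * l ≤ √C * R := by
        have h5 : ((q : ℝ) * l) ^ 2 ≤ (√C * R) ^ 2 := by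
          rw [mul_pow (√(C : ℝ)), hR, Real.sq_sqrt hCr, Real.sq_sqrt (by positivity)]
          have h6 : (q : ℝ) ^ 2 * l ≤ C * N := by exact_mod_cast hA
          calc ((q : ℝ) * (l : ℝ)) ^ 2 = ((q : ℝ) ^ 2 * (l : ℝ)) * (l : ℝ) := by ring
            _ ≤ ((C : ℝ) * (N : ℝ)) * (l : ℝ) := mul_le_mul_of_nonneg_right h6 hlr
            _ ≤ (C : ℝ) * ((N : ℝ) * ((l : ℝ) + 1)) := by
              nlinarith [mul_nonneg hCr (show (0:ℝ) ≤ N by linarith)]
        exact le_of_sq_le_sq h5 (by positivity)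
      calc (q : ℝ) * b * (l + 7) ≤ q * b * (8 * l) := by
            apply mul_le_mul_of_nonneg_left (by linarith) (by positivity)
        _ = 8 * (b * (q * l)) := by ring
        _ ≤ 8 * (b * (√C * R)) := by
          have := mul_le_mul_of_nonneg_left h4 (show (0:ℝ) ≤ b by linarith)
          linarith
        _ ≤ 7 * N + 8 * (b * (√C * R)) := by linarith
  have h0r : ((Et N q b c + 1 : ℕ) : ℝ) ≤ 42 * (q * b * (l + 7)) + 185 * N + 4 * b + 3 * (b * H) := by
    exact_mod_cast h0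
  have e6 : (b : ℝ) * H ≤ 2 * (b * (√C * R)) := by
    have := mul_le_mul_of_nonneg_left e4 (show (0:ℝ) ≤ b by linarith)
    calc (b : ℝ) * H ≤ b * (2 * √C * R) := this
      _ = 2 * (b * (√C * R)) := by ring
  have e7 : (b : ℝ) * (√C * R) ≤ 2 * √(20 * C) * (L * S) := by
    calc (b : ℝ) * (√C * R) ≤ (2 * L) * (√C * (√20 * S)) := by
          apply mul_le_mul hbL _ (by positivity) (by linarith)
          exact mul_le_mul_of_nonneg_left e3 (Real.sqrt_nonneg _)
      _ = 2 * (√20 * √C) * (L * S) := by ring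
      _ = 2 * √(20 * C) * (L * S) := by rw [← Real.sqrt_mul (by norm_num)]
  have e8 : L ≤ 2 * (L * S) := by nlinarith
  rw [hs2]
  have hK0 : (0 : ℝ) ≤ √(20 * C) := Real.sqrt_nonneg _
  calc ((Et N q b c + 1 : ℕ) : ℝ) ≤ 42 * (q * b * (l + 7)) + 185 * N + 4 * b + 3 * (b * H) := h0r
    _ ≤ 42 * (7 * N + 8 * (b * (√C * R))) + 185 * N + 4 * b + 3 * (2 * (b * (√C * R))) := by
      gcongr
    _ = 479 * N + 4 * b + 342 * (b * (√C * R)) := by ring
    _ ≤ 479 * (2 * L) + 4 * (2 * L) + 342 * (2 * √(20 * C) * (L * S)) := by gcongr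
    _ = 966 * L + 684 * √(20 * C) * (L * S) := by ring
    _ ≤ 966 * (2 * (L * S)) + 684 * √(20 * C) * (L * S) := by gcongr
    _ = (1932 + 684 * √(20 * C)) * (L * S) := by ring
    _ ≤ (1932 + 684 * √(20 * C)) * (L * S + 1) := by
      apply mul_le_mul_of_nonneg_left (by linarith) (by positivity)

end Pool.Agent.Helper42.CTG
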